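import Pool.Agent.H19.OM.Stm2

/-!
# Project OM, module C1: the prime 2 (helper76 for helper19)
-/

set_option autoImplicit false

namespace Pool.Agent.H76.OM

open Finset Pool.Agent.H19.OM

/-- the number of multiples in a window -/
lemma count_eq (d n : ℕ) (hd : 0 < d) (k : ℕ) :
    ((range k).filter (fun i => d ∣ n + i)).card + (n + d - 1) / d = (n + d - 1 + k) / d := by
  induction k with
  | zero => simp
  | succ k ih =>
    rw [range_add_one, filter_insert, ← add_assoc, Nat.succ_div, ← ih]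
    have h1 : d ∣ n + d - 1 + k + 1 ↔ d ∣ n + k := by
      rw [show n + d - 1 + k + 1 = n + k + d by omega]
      exact Nat.dvd_add_self_right
    by_cases h2 : d ∣ n + k
    · rw [if_pos h2, if_pos (h1.2 h2), card_insert_of_notMem (by simp)]
      omega
    · rw [if_neg h2, if_neg (fun h => h2 (h1.1 h)), add_zero]

lemma count_abs (d n : ℕ) (hd : 0 < d) (k : ℕ) :
    |(((range k).filter (fun i => d ∣ n + i)).card : ℝ) - k / d| ≤ 1 := by
  have h1 := count_eq d n hd k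
  have hd' : (0 : ℝ) < d := by exact_mod_cast hd
  have h2 : (((range k).filter (fun i => d ∣ n + i)).card : ℝ) + ((n + d - 1) / d : ℕ) =
      ((n + d - 1 + k) / d : ℕ) := by exact_mod_cast h1
  have h3 : (((n + d - 1 + k) / d : ℕ) : ℝ) ≤ ((n + d - 1 + k : ℕ) : ℝ) / d := Nat.cast_div_le
  have h4 : (((n + d - 1) / d : ℕ) : ℝ) ≤ ((n + d - 1 : ℕ) : ℝ) / d := Nat.cast_div_le
  have h5 : ((n + d - 1 + k : ℕ) : ℝ) / d < (((n + d - 1 + k) / d : ℕ) : ℝ) + 1 := by
    rw [div_lt_iff₀ hd']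
    exact_mod_cast (by
      have := Nat.lt_mul_div_succ (n + d - 1 + k) hd
      rw [mul_comm]; exact this : n + d - 1 + k < ((n + d - 1 + k) / d + 1) * d)
  have h6 : ((n + d - 1 : ℕ) : ℝ) / d < (((n + d - 1) / d : ℕ) : ℝ) + 1 := by
    rw [div_lt_iff₀ hd']
    exact_mod_cast (by
      have := Nat.lt_mul_div_succ (n + d - 1) hd
      rw [mul_comm]; exact this : n + d - 1 < ((n + d - 1) / d + 1) * d)
  have h7 : ((n + d - 1 + k : ℕ) : ℝ) / d = ((n + d - 1 : ℕ) : ℝ) / d + k / d := by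
    rw [Nat.cast_add, add_div]
  rw [abs_le]
  constructor <;> linarith

/-- the sum over the window -/
noncomputable def tt (l m n : ℕ) : ℝ := ∑ i ∈ range (2 * m), (val 2 l (n + i) : ℝ)

lemma tt_eq (l m n : ℕ) : tt l m n =
    ∑ a ∈ Icc 1 l, (((range (2 * m)).filter (fun i => 2 ^ a ∣ n + i)).card : ℝ) := by
  unfold tt Pool.Agent.H19.OM.val
  have h1 : ∀ i, ((((Icc 1 l).filter (fun a => 2 ^ a ∣ n + i)).card : ℕ) : ℝ) =
      ∑ a ∈ Icc 1 l, (if 2 ^ a ∣ n + i then (1 : ℝ) else 0) := by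
    intro i
    rw [card_filter]
    push_cast
    rfl
  simp only [h1]
  rw [sum_comm]
  refine sum_congr rfl fun a _ => ?_
  rw [card_filter]
  push_cast
  rfl

lemma geom (l : ℕ) (x : ℝ) : ∑ a ∈ Icc 1 l, x / ((2 ^ a : ℕ) : ℝ) = x - x / 2 ^ l := by
  induction l with
  | zero => simp
  | succ l ih =>
    rw [sum_Icc_succ_top (by omega), ih, pow_succ]
    push_cast
    field_simp
    ring

lemma tt_abs (l m n : ℕ) : |tt l m n - 2 * m| ≤ l + 2 * m / 2 ^ l := by
  have h1 : |tt l m n - (2 * m - 2 * m / 2 ^ l)| ≤ l := by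
    rw [tt_eq, ← geom l (2 * m), ← sum_sub_distrib]
    refine (abs_sum_le_sum_abs _ _).trans ?_
    calc ∑ a ∈ Icc 1 l, |(((range (2 * m)).filter (fun i => 2 ^ a ∣ n + i)).card : ℝ) -
          2 * m / ((2 ^ a : ℕ) : ℝ)| ≤ ∑ a ∈ Icc 1 l, (1 : ℝ) := by
          refine sum_le_sum fun a _ => ?_
          have := count_abs (2 ^ a) n (by positivity) (2 * m)
          push_cast at this ⊢
          exact this
      _ = l := by simp
  have h2 : (0 : ℝ) ≤ 2 * m / 2 ^ l := by positivity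
  rw [abs_le] at h1 ⊢
  constructor <;> linarith

lemma val_odd (l x : ℕ) (hx : ¬ 2 ∣ x) : val 2 l x = 0 := by
  unfold Pool.Agent.H19.OM.val
  rw [card_eq_zero, filter_eq_empty_iff]
  intro a ha h
  rw [mem_Icc] at ha
  exact hx ((dvd_pow_self 2 (by omega)).trans h)

lemma sum_two (g : ℕ → ℝ) (m : ℕ) :
    ∑ i ∈ range (2 * m), g i = ∑ j ∈ range m, (g (2 * j) + g (2 * j + 1)) := by
  induction m with
  | zero => simp
  | succ m ih =>
    rw [show 2 * (m + 1) = 2 * m + 1 + 1 by ring, sum_range_succ, sum_range_succ, ih,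
      sum_range_succ]
    ring

lemma sum_two' (g : ℕ → ℂ) (m : ℕ) :
    ∑ i ∈ range (2 * m), g i = ∑ j ∈ range m, (g (2 * j) + g (2 * j + 1)) := by
  induction m with
  | zero => simp
  | succ m ih =>
    rw [show 2 * (m + 1) = 2 * m + 1 + 1 by ring, sum_range_succ, sum_range_succ, ih,
      sum_range_succ]
    ring

lemma stat_eq (l m n : ℕ) :
    stat 2 m 0 (fun i => (val 2 l (n + i) : ℝ)) = (-1) ^ n * tt l m n := by
  unfold stat tt
  rw [sum_two, mul_sum]
  refine sum_congr rfl fun j _ => ?_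
  norm_num
  rcases Nat.even_or_odd n with h | h
  · rw [h.neg_one_pow, val_odd l (n + (j * 2 + 1)) (by obtain ⟨t, rfl⟩ := h; omega),
      val_odd l (n + (2 * j + 1)) (by obtain ⟨t, rfl⟩ := h; omega), mul_comm j 2]
    simp
  · rw [h.neg_one_pow, val_odd l (n + (j * 2)) (by obtain ⟨t, rfl⟩ := h; omega),
      val_odd l (n + (2 * j)) (by obtain ⟨t, rfl⟩ := h; omega), mul_comm j 2]
    simp

lemma exp_sub (x y : ℝ) :
    ‖Complex.exp ((x : ℂ) * Complex.I) - Complex.exp ((y : ℂ) * Complex.I)‖ ≤ |x - y| := by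
  have h1 : Complex.exp ((x : ℂ) * Complex.I) - Complex.exp ((y : ℂ) * Complex.I) =
      Complex.exp ((y : ℂ) * Complex.I) *
        (Complex.exp (Complex.I * ((x - y : ℝ) : ℂ)) - 1) := by
    rw [mul_sub, mul_one, ← Complex.exp_add]
    congr 2
    push_cast
    ring
  rw [h1, norm_mul, Complex.norm_exp_ofReal_mul_I, one_mul]
  exact Real.norm_exp_I_mul_ofReal_sub_one_le

theorem t_C1 : S_C1 := by
  intro L m θ hL hm
  set l := L 2 with hl
  obtain ⟨k, hk⟩ : ∃ k, 2 ^ l = 2 * k := ⟨2 ^ (l - 1), by rw [← pow_succ']; congr 1; omega⟩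
  have hk0 : 0 < k := by
    rcases Nat.eq_zero_or_pos k with h | h
    · rw [h, mul_zero] at hk
      exact absurd hk (by positivity)
    · exact h
  have hMo : Mo L {2} = 2 * k := by
    rw [Mo, prod_singleton, ← hl, hk]
  set D : ℝ := |θ| * (l + 2 * m / 2 ^ l) with hD
  have hterm : ∀ n, ‖Complex.exp (((θ * stat 2 m 0 (fun i => ((∑ p ∈ ({2} : Finset ℕ),
      val p (L p) (n + i) : ℕ) : ℝ)) : ℝ) : ℂ) * Complex.I) -
      Complex.exp ((((-1) ^ n * (2 * m * θ) : ℝ) : ℂ) * Complex.I)‖ ≤ D := by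
    intro n
    refine (exp_sub _ _).trans ?_
    simp only [sum_singleton]
    rw [← hl, stat_eq]
    have e : θ * ((-1) ^ n * tt l m n) - (-1) ^ n * (2 * m * θ) =
        (-1) ^ n * (θ * (tt l m n - 2 * m)) := by ring
    rw [e, abs_mul, abs_pow, abs_neg, abs_one, one_pow, one_mul, abs_mul]
    exact mul_le_mul_of_nonneg_left (tt_abs l m n) (abs_nonneg _)
  have hsum : ∑ n ∈ range (2 * k), Complex.exp ((((-1) ^ n * (2 * m * θ) : ℝ) : ℂ) * Complex.I) =
      (2 * k) * (Real.cos (2 * m * θ) : ℂ) := by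
    rw [sum_two']
    have h1 : ∀ j, Complex.exp ((((-1) ^ (2 * j) * (2 * m * θ) : ℝ) : ℂ) * Complex.I) +
        Complex.exp ((((-1) ^ (2 * j + 1) * (2 * m * θ) : ℝ) : ℂ) * Complex.I) =
        2 * (Real.cos (2 * m * θ) : ℂ) := by
      intro j
      have e1 : ((-1 : ℝ)) ^ (2 * j) = 1 := by rw [pow_mul]; norm_num
      have e2 : ((-1 : ℝ)) ^ (2 * j + 1) = -1 := by rw [pow_succ, e1]; norm_num
      rw [e1, e2, Complex.ofReal_cos, Complex.cos]
      push_cast
      ring_nf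
    simp only [h1]
    rw [sum_const, card_range, nsmul_eq_mul]
    ring
  unfold charJ
  rw [hMo]
  have hk' : (0 : ℝ) < ((2 * k : ℕ) : ℝ) := by exact_mod_cast (by omega : 0 < 2 * k)
  rw [norm_div, Complex.norm_natCast, div_le_iff₀ hk']
  have h2 : ‖∑ n ∈ range (2 * k), (Complex.exp (((θ * stat 2 m 0 (fun i => ((∑ p ∈ ({2} : Finset ℕ),
      val p (L p) (n + i) : ℕ) : ℝ)) : ℝ) : ℂ) * Complex.I) -
      Complex.exp ((((-1) ^ n * (2 * m * θ) : ℝ) : ℂ) * Complex.I))‖ ≤ ((2 * k : ℕ) : ℝ) * D := by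
    refine (norm_sum_le _ _).trans ?_
    refine (sum_le_sum fun n _ => hterm n).trans ?_
    rw [sum_const, card_range, nsmul_eq_mul]
  rw [sum_sub_distrib, hsum] at h2
  set Z := ∑ n ∈ range (2 * k), Complex.exp (((θ * stat 2 m 0 (fun i => ((∑ p ∈ ({2} : Finset ℕ),
      val p (L p) (n + i) : ℕ) : ℝ)) : ℝ) : ℂ) * Complex.I) with hZ
  have h3 : ‖Z‖ ≤ ‖Z - (2 * k) * (Real.cos (2 * m * θ) : ℂ)‖ +
      ‖(2 * k : ℂ) * (Real.cos (2 * m * θ) : ℂ)‖ := by
    have := norm_add_le (Z - (2 * k) * (Real.cos (2 * m * θ) : ℂ))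
      ((2 * k : ℂ) * (Real.cos (2 * m * θ) : ℂ))
    rwa [sub_add_cancel] at this
  have h4 : ‖(2 * k : ℂ) * (Real.cos (2 * m * θ) : ℂ)‖ = ((2 * k : ℕ) : ℝ) * |Real.cos (2 * m * θ)| := by
    rw [norm_mul, Complex.norm_real, Real.norm_eq_abs]
    congr 1
    have : (2 * k : ℂ) = ((2 * k : ℕ) : ℂ) := by push_cast; ring
    rw [this, Complex.norm_natCast]
  rw [h4] at h3
  have h5 : (|Real.cos (2 * m * θ)| + |θ| * (l + 2 * m / 2 ^ l)) * ((2 * k : ℕ) : ℝ) =
      ((2 * k : ℕ) : ℝ) * D + ((2 * k : ℕ) : ℝ) * |Real.cos (2 * m * θ)| := by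
    rw [hD]; ring
  rw [h5]
  linarith

end Pool.Agent.H76.OM
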